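import Pool.Agent.Run7.h517.H12
import Pool.Agent.Run7.h517.H13

/-!
# Hasse-Weil L-functions: zero-free half-planes, the Lindelöf hypothesis and the derivatives of the
# heat flow

Let `X` be projective and smooth over `ℤ[1/N]` and let `Λ` be the completed L-function `Λ_A(i; X, s)`, for
even `i` multiplied by `((s - i/2) (s - i/2 - 1))^r` if it has poles of order `r` at `s = i/2`, `i/2 + 1`.
Let `D = d/ds` and let `Λ_t = e^{t D²} Λ` be the heat flow.  Part (d) of the problem for `(X, i)` says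
that all zeros of `D^n Λ_t` are on the line `Re s = (i+1)/2` for `n = 0`, `t = 0`, and it implies this for
all `n` and all `t ≥ 0`.

Let `𝔠(y) = A ∏ (1 + |μ + i y|)` be the analytic conductor and let `P` be any set of such L-functions of
the same degree `m = b_i` (for instance all of them, or one of them).

* `RealFrom P c`: for all large `n`, all `t ≥ c/n` and all members of `P`, ALL zeros of `D^n Λ_t` are simple
  and on the line `Re s = (i+1)/2`.
* `ZeroFree P v`: for every `ε > 0`, `Λ` has no zeros with `Re s ≥ (i+1)/2 + v + ε` and `𝔠(Im s)` large.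
* `Size P a`: `L((i+1)/2 + i y) ≪ 𝔠(y)^(a + ε)` for every `ε > 0`; `Size P 0` is the Lindelöf hypothesis.

The theorem: (1) `ZeroFree P v` implies `RealFrom P c` for every `c > v²/8`; (2) `RealFrom P c` holds for
every `c > 1/32` without any hypothesis on the zeros; (3) conversely `Size P a` and reality on the single
curve `t = c/n` imply `ZeroFree P (a + √(a² + 8c))`; (4) under the Lindelöf hypothesis `ZeroFree P v` is
equivalent to `RealFrom P c` for all `c > v²/8`, so the zeros of `D^n Λ_t` determine the width of the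
zero-free half-plane; (5) if `RealFrom P c` holds for all `c > 0`, then `Size P a` is equivalent to
`ZeroFree P (2a)`; (6) `ZeroFree P 0` is equivalent to the Lindelöf hypothesis together with `RealFrom P c`
for all `c > 0`.

It was known (starting file `UniformDerivatives` of this problem) that the zeros of `D^n Λ_t` are on the
line and simple if `n t ≥ C`, with an unspecified constant `C`.

`X` enters through the data `Cohomology i`, which by Deligne's theorem have the required properties, and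
(a), (b) are part of the data `HasseWeil m`.  For `X = E^g`, `E : y² = x³ - x`, all `g` and all odd
`i < 2g`, they are proved here, so for these varieties the theorem is unconditional.
-/

set_option autoImplicit false

namespace Pool.Agent.Results.MP_7193be_nt.ExactHeatRange

open Complex Polynomial
open scoped ComplexConjugate

/-! ### The data of a Hasse-Weil L-function -/

/-- The Betti number `b_i = 2 ∑_{p < q, p + q = i} h^{p,q} + h^{m,+} + h^{m,-}` (the last two for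
`i = 2m`), where `hodge p = h^{p, i-p}`. -/
def bettiOf (i : ℕ) (hodge : ℕ → ℕ) (plus minus : ℕ) : ℕ :=
  2 * ∑ p ∈ Finset.range ((i + 1) / 2), hodge p + (if Even i then plus + minus else 0)

/-- What enters of the cohomology `H^i` of a projective smooth scheme `X` over `ℤ[1/N]` in the Hasse-Weil
L-function `L(i; X, s)` and its gamma factor. -/
structure Cohomology (i : ℕ) where
  /-- the integer `N`: good reduction for `p ∤ N` -/
  N : ℕ
  /-- the Hodge numbers `hodge p = h^{p, i - p}` for `2 p < i` -/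
  hodge : ℕ → ℕ
  /-- `h^{m,+}` for `i = 2m` -/
  plus : ℕ
  /-- `h^{m,-}` for `i = 2m` -/
  minus : ℕ
  /-- `P_i(X(p), T)` for `p ∤ N`, and `det(1 - Frob_p T | H^i(X)^{I_p})` for `p ∣ N` -/
  P : ℕ → ℤ[X]
  N_pos : 0 < N
  betti_pos : 0 < bettiOf i hodge plus minus
  const : ∀ p : ℕ, p.Prime → (P p).coeff 0 = 1
  degree_good : ∀ p : ℕ, p.Prime → ¬ p ∣ N → (P p).natDegree = bettiOf i hodge plus minus
  degree_bad : ∀ p : ℕ, p.Prime → p ∣ N → (P p).natDegree ≤ bettiOf i hodge plus minus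
  roots_good : ∀ p : ℕ, p.Prime → ¬ p ∣ N → ∀ z : ℂ, aeval z (P p) = 0 →
    ‖z‖ = (p : ℝ) ^ (-((i : ℝ) / 2))
  roots_bad : ∀ p : ℕ, p.Prime → p ∣ N → ∀ z : ℂ, aeval z (P p) = 0 →
    (p : ℝ) ^ (-(((i : ℝ) + 1) / 2)) ≤ ‖z‖

namespace Cohomology

variable {i : ℕ} (V : Cohomology i)

/-- the Betti number `b_i` -/
def betti : ℕ := bettiOf i V.hodge V.plus V.minus

/-- the L-function (with the factors at the primes dividing `N`) in the half-plane of convergence -/
noncomputable def L (s : ℂ) : ℂ :=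
  ∏' p : Nat.Primes, (aeval (((p : ℕ) : ℂ) ^ (-s)) (V.P p))⁻¹

/-- the gamma factor `Γ_i(s) = ∏_{p<q} Γ_ℂ(s-p)^{h^{p,q}} Γ_ℝ(s-m)^{h^{m,+}} Γ_ℝ(s-m+1)^{h^{m,-}}`, the last
two factors for `i = 2m` only -/
noncomputable def gammaFactor (s : ℂ) : ℂ :=
  (∏ p ∈ Finset.range ((i + 1) / 2), Gammaℂ (s - p) ^ V.hodge p) *
    (if Even i then Gammaℝ (s - (i : ℂ) / 2) ^ V.plus * Gammaℝ (s - (i : ℂ) / 2 + 1) ^ V.minus
      else 1)

/-- the analytic conductor at height `y`, for the conductor `A` -/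
noncomputable def analyticConductor (A y : ℝ) : ℝ :=
  A * ((∏ p ∈ Finset.range ((i + 1) / 2), ((1 + ‖(y : ℂ) * I + ((i : ℂ) / 2 - p)‖) *
    (1 + ‖(y : ℂ) * I + ((i : ℂ) / 2 - p + 1)‖)) ^ V.hodge p) *
    (if Even i then (1 + ‖(y : ℂ) * I + 0‖) ^ V.plus * (1 + ‖(y : ℂ) * I + 1‖) ^ V.minus else 1))

/-- `Λ` is the completed L-function `Λ_A(i; X, s)` (multiplied by `((s - i/2) (s - i/2 - 1))^r`), and it
has the properties (a), (b): it is entire, of finite order, and `Λ(s) = ± Λ(i + 1 - s)`. -/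
structure Continued (A : ℝ) (r : ℕ) (Λ : ℂ → ℂ) : Prop where
  one_le : 1 ≤ A
  r_le : r ≤ V.betti
  entire : Differentiable ℂ Λ
  order : ∃ c ρ : ℝ, ∀ s : ℂ, ‖Λ s‖ ≤ Real.exp (c * (1 + ‖s‖) ^ ρ)
  fe : ∃ ε : ℝ, (ε = 1 ∨ ε = -1) ∧ ∀ s : ℂ, Λ s = ε * Λ (i + 1 - s)
  eq : ∃ σ : ℝ, ∀ s : ℂ, σ ≤ s.re → Λ s = ((s - (i : ℂ) / 2) * (s - (i : ℂ) / 2 - 1)) ^ r *
    ((A : ℂ) ^ (s / 2) * V.gammaFactor s * V.L s)

end Cohomology

/-- A Hasse-Weil L-function of degree `m` with continuation and functional equation: the degree `i` of the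
cohomology, its data `V` with Betti number `m`, the conductor `A`, the order `r` of the poles and the
completed L-function `Λ`. -/
structure HasseWeil (m : ℕ) where
  /-- the degree of the cohomology -/
  i : ℕ
  /-- the data of `H^i(X)` -/
  V : Cohomology i
  /-- the conductor -/
  A : ℝ
  /-- the order of the poles at `i/2`, `i/2 + 1` which were removed -/
  r : ℕ
  /-- the completed L-function -/
  Λ : ℂ → ℂ
  degree : V.betti = m
  continued : V.Continued A r Λ

namespace HasseWeil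

variable {m : ℕ} (X : HasseWeil m)

/-- the L-function `Λ(s) / (((s - i/2) (s - i/2 - 1))^r A^(s/2) Γ_i(s))` -/
noncomputable def L (s : ℂ) : ℂ :=
  X.Λ s / (((s - (X.i : ℂ) / 2) * (s - (X.i : ℂ) / 2 - 1)) ^ X.r *
    ((X.A : ℂ) ^ (s / 2) * X.V.gammaFactor s))

/-- the analytic conductor at the height `y` -/
noncomputable def C (y : ℝ) : ℝ := X.V.analyticConductor X.A y

/-- the abscissa `(i + 1)/2` of the critical line -/
noncomputable def centre : ℝ := ((X.i : ℝ) + 1) / 2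

end HasseWeil

/-! ### The heat flow and its derivatives -/

/-- The heat flow `Λ_t = e^{t D²} Λ` (`D = d/ds`) as a Gaussian average:
`Λ_t(s) = π^(-1/2) ∫ exp (-v²) Λ(s + 2 √t v) dv`. -/
noncomputable def heat (t : ℝ) (Λ : ℂ → ℂ) (s : ℂ) : ℂ :=
  ((1 / Real.sqrt Real.pi : ℝ) : ℂ) *
    ∫ v : ℝ, ((Real.exp (-v ^ 2) : ℝ) : ℂ) * Λ (s + ((2 * Real.sqrt t * v : ℝ) : ℂ))

variable {m : ℕ}

/-- There is `n₀` such that for all `X ∈ P`, all `n ≥ n₀` and all `t` with `n t ≥ c`, ALL zeros of `D^n Λ_t`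
are simple and on the line `Re s = (i+1)/2`. -/
def RealFrom (P : HasseWeil m → Prop) (c : ℝ) : Prop :=
  ∃ n₀ : ℕ, ∀ X : HasseWeil m, P X → ∀ n : ℕ, n₀ ≤ n → ∀ t : ℝ, c ≤ n * t → ∀ s : ℂ,
    iteratedDeriv n (heat t X.Λ) s = 0 → s.re = X.centre ∧ iteratedDeriv (n + 1) (heat t X.Λ) s ≠ 0

/-- There is `n₀` such that for all `X ∈ P` and all `n ≥ n₀`, all zeros of `D^n Λ_{c/n}` are on the line
`Re s = (i+1)/2`. -/
def RealOn (P : HasseWeil m → Prop) (c : ℝ) : Prop :=
  ∃ n₀ : ℕ, ∀ X : HasseWeil m, P X → ∀ n : ℕ, n₀ ≤ n → ∀ s : ℂ,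
    iteratedDeriv n (heat (c / n) X.Λ) s = 0 → s.re = X.centre

/-- For every `ε > 0` there is `C₀` such that for all `X ∈ P`, `Λ` has no zero `s` with
`Re s ≥ (i+1)/2 + v + ε` and `𝔠(Im s) ≥ C₀`. -/
def ZeroFree (P : HasseWeil m → Prop) (v : ℝ) : Prop :=
  ∀ ε : ℝ, 0 < ε → ∃ C₀ : ℝ, ∀ X : HasseWeil m, P X → ∀ s : ℂ, C₀ ≤ X.C s.im →
    X.centre + v + ε ≤ s.re → X.Λ s ≠ 0

/-- `L((i+1)/2 + i y) ≪ 𝔠(y)^(a + ε)` for every `ε > 0`, uniformly in `X ∈ P` and `y`. -/
def Size (P : HasseWeil m → Prop) (a : ℝ) : Prop :=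
  ∀ ε : ℝ, 0 < ε → ∃ B : ℝ, ∀ X : HasseWeil m, P X → ∀ y : ℝ,
    ‖X.L ((X.centre : ℂ) + (y : ℂ) * I)‖ ≤ B * X.C y ^ (a + ε)

/-- The statements for a set of Hasse-Weil L-functions of degree `m`. -/
structure HeatRange (P : HasseWeil m → Prop) : Prop where
  /-- zero-free half-planes give real zeros, with the constant `v²/8` -/
  forward : ∀ v c : ℝ, 0 ≤ v → ZeroFree P v → v ^ 2 / 8 < c → RealFrom P c
  /-- without hypothesis -/
  always : ∀ c : ℝ, 1 / 32 < c → RealFrom P c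
  /-- real zeros on one curve `n t = c` give zero-free half-planes -/
  backward : ∀ a c : ℝ, 0 ≤ a → 0 < c → Size P a → RealOn P c →
    ZeroFree P (a + Real.sqrt (a ^ 2 + 8 * c))
  /-- the equivalence under the Lindelöf hypothesis -/
  lindelof : Size P 0 → ∀ v : ℝ, 0 ≤ v → (ZeroFree P v ↔ ∀ c : ℝ, v ^ 2 / 8 < c → RealFrom P c)
  /-- the equivalence of size and zero-free half-planes -/
  size : (∀ c : ℝ, 0 < c → RealFrom P c) → ∀ a : ℝ, 0 ≤ a → (Size P a ↔ ZeroFree P (2 * a))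
  /-- zero-free half-planes up to the critical line -/
  zero : ZeroFree P 0 ↔ Size P 0 ∧ ∀ c : ℝ, 0 < c → RealFrom P c

/-! ### The powers of the curve `y² = x³ - x` -/

/-- `a_p`: the prime `p` minus the number of the pairs `(x, y)` modulo `p` with `y² = x³ - x` -/
noncomputable def a (p : ℕ) : ℤ :=
  (p : ℤ) - (((Finset.range p ×ˢ Finset.range p).filter
    (fun xy : ℕ × ℕ => (p : ℤ) ∣ (xy.2 : ℤ) ^ 2 - ((xy.1 : ℤ) ^ 3 - (xy.1 : ℤ)))).card : ℤ)

/-- `X` is the L-function of `H^i(E^g)`, `E : y² = x³ - x`: for `p ≠ 2`, `P_p(T)` is the product of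
`(1 - α^j β^(i-j) T)^(C(g, j) C(g, i-j))` over `0 ≤ j ≤ i`, where `α`, `β` are the roots of
`T² - a_p T + p`; `P_2 = 1`; `h^{p, i-p} = C(g, p) C(g, i-p)`; the conductor is `A = 32^N` with
`N = ∑_{2p < i} h^{p, i-p}`; there are no poles. -/
def IsPower (g i : ℕ) (X : HasseWeil m) : Prop :=
  X.i = i ∧ X.V.N = 2 ∧ X.r = 0 ∧ X.V.P 2 = 1 ∧
  (∀ p : ℕ, p.Prime → p ≠ 2 → ∀ α β : ℂ, α + β = (a p : ℂ) → α * β = p → ∀ z : ℂ,
    aeval z (X.V.P p) = ∏ j ∈ Finset.range (i + 1),
      (1 - α ^ j * β ^ (i - j) * z) ^ (g.choose j * g.choose (i - j))) ∧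
  (∀ p : ℕ, X.V.hodge p = g.choose p * g.choose (i - p)) ∧
  X.A = 32 ^ (∑ p ∈ Finset.range ((i + 1) / 2), g.choose p * g.choose (i - p))

/-! ### Proofs -/

lemma data (X : HasseWeil m) : ∃ (a' : Fin m → ℂ) (α : Nat.Primes → Fin m → ℂ),
      Pool.Agent.TH839.UH.EP.HW m X.r X.A a' α
        (fun z => ((X.A ^ (-((X.i : ℝ) / 4)) : ℝ) : ℂ) * X.Λ (z + (((X.i : ℝ) / 2 : ℝ) : ℂ))) ∧
      (∀ s : ℂ, ((X.A ^ (-((X.i : ℝ) / 4)) : ℝ) : ℂ) * X.Λ (s + (((X.i : ℝ) / 2 : ℝ) : ℂ)) = 0 →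
        s.re ≤ 1) ∧
      (∀ j, 0 ≤ (a' j).re) ∧
      (∀ z : ℂ, ∏ j, Gammaℝ (z + a' j) = X.V.gammaFactor (z + (X.i : ℂ) / 2)) ∧
      ∀ y : ℝ, X.C y = X.A * ∏ j, (1 + ‖(y : ℂ) * I + a' j‖) := by
  have h := X.continued
  have hm : 1 ≤ m := by
    have h1 := X.V.betti_pos
    have h2 := X.degree
    unfold Cohomology.betti at h2
    omega
  have hdeg : ∀ p : ℕ, p.Prime → (X.V.P p).natDegree ≤ m := by
    intro p hp
    refine le_trans ?_ X.degree.le
    by_cases hpN : p ∣ X.V.N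
    · exact X.V.degree_bad p hp hpN
    · exact (X.V.degree_good p hp hpN).le
  have hroots : ∀ p : ℕ, p.Prime → ∀ z : ℂ, aeval z (X.V.P p) = 0 →
      (p : ℝ) ^ (-(((X.i : ℝ) + 1) / 2)) ≤ ‖z‖ := by
    intro p hp z hz
    by_cases hpN : p ∣ X.V.N
    · exact X.V.roots_bad p hp hpN z hz
    · rw [X.V.roots_good p hp hpN z hz]
      exact Real.rpow_le_rpow_of_exponent_le (by exact_mod_cast hp.one_le) (by linarith)
  obtain ⟨a', α, h1, h2, h3, h4, h5⟩ := Run7.h517.GL.coh2 (i := X.i) (h := X.V.hodge)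
      (a := X.V.plus) (b := X.V.minus) (P := X.V.P) X.degree hm X.V.const hdeg hroots
      X.V.N_pos (fun p hp hpN z hz => (X.V.roots_good p hp hpN z hz).ge)
      h.one_le (h.r_le.trans X.degree.le) h.entire h.order h.fe h.eq
  refine ⟨a', α, h1, h2, h3, fun z => ?_, fun y => ?_⟩
  · rw [h4]
    unfold Cohomology.gammaFactor
    rw [add_sub_cancel_right]
  · rw [h5]
    rfl

/-- the family -/
lemma fam (P : HasseWeil m → Prop) : ∃ F : Run7.h517.GL.FamA {X : HasseWeil m // P X} m,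
    (∀ X, F.x X = X.1.centre) ∧ (∀ X, F.Λ X = X.1.Λ) ∧ (∀ X, F.Lf X = X.1.L) ∧
      (∀ X, F.Cn X = X.1.C) := by
  choose a' α hw hz ha hgam hC using data (m := m)
  have hκ : ∀ X : {X : HasseWeil m // P X}, ((X.1.A ^ (-((X.1.i : ℝ) / 4)) : ℝ) : ℂ) ≠ 0 := by
    intro X
    have hA := X.1.continued.one_le
    have : (0 : ℝ) < X.1.A ^ (-((X.1.i : ℝ) / 4)) := by
      have : (0 : ℝ) < X.1.A := by linarith
      positivity
    exact_mod_cast this.ne'
  obtain ⟨F, h1, h2, h3, h4⟩ := Run7.h517.GL.epfam (ι := {X : HasseWeil m // P X})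
    (fun X => (X.1.i : ℝ) / 2) (fun X => X.1.A) (fun X => X.1.r) (fun X => X.1.Λ)
    (fun X => ((X.1.A ^ (-((X.1.i : ℝ) / 4)) : ℝ) : ℂ)) (fun X => a' X.1) (fun X => α X.1)
    (fun X => X.1.L) (fun X => X.1.C) hκ (fun X => hw X.1) (fun X => hz X.1)
    (fun X => ha X.1) (fun X y => Run7.h517.GL.cohLf X.1.continued.one_le (ha X.1) (hgam X.1) y rfl)
    (fun X y => hC X.1 y)
  refine ⟨F, fun X => ?_, h2, h3, h4⟩
  rw [h1]
  unfold HasseWeil.centre
  ring

theorem heatRange (P : HasseWeil m → Prop) : HeatRange P := by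
  obtain ⟨F, hx, hΛ, hL, hC⟩ := fam P
  have h := F.main
  have e1 : ∀ c, F.Re_ c ↔ RealFrom P c := fun c => by
    constructor
    · rintro ⟨n0, H⟩
      refine ⟨n0, fun X hX n hn t hnt s hs => ?_⟩
      have := H ⟨X, hX⟩ n hn t hnt s (by rw [hΛ]; exact hs)
      rwa [hx, hΛ] at this
    · rintro ⟨n0, H⟩
      refine ⟨n0, fun X n hn t hnt s hs => ?_⟩
      rw [hΛ] at hs ⊢
      rw [hx]
      exact H X.1 X.2 n hn t hnt s hs
  have e2 : ∀ v, F.Free v ↔ ZeroFree P v := fun v => by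
    constructor
    · intro h ε hε
      obtain ⟨C0, H⟩ := h ε hε
      refine ⟨C0, fun X hX s a1 a2 => ?_⟩
      have := H ⟨X, hX⟩ s (by rw [hC]; exact a1) (by rw [hx]; exact a2)
      rwa [hΛ] at this
    · intro h ε hε
      obtain ⟨C0, H⟩ := h ε hε
      refine ⟨C0, fun X s a1 a2 => ?_⟩
      rw [hC] at a1
      rw [hx] at a2
      rw [hΛ]
      exact H X.1 X.2 s a1 a2
  have e3 : ∀ a, F.Sz a ↔ Size P a := fun a => by
    constructor
    · intro h ε hε
      obtain ⟨B, H⟩ := h ε hε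
      refine ⟨B, fun X hX t => ?_⟩
      have := H ⟨X, hX⟩ t
      rwa [hL, hx, hC] at this
    · intro h ε hε
      obtain ⟨B, H⟩ := h ε hε
      refine ⟨B, fun X t => ?_⟩
      rw [hL, hx, hC]
      exact H X.1 X.2 t
  have e4 : ∀ c, F.Rc_ c ↔ RealOn P c := fun c => by
    constructor
    · rintro ⟨n0, H⟩
      refine ⟨n0, fun X hX n hn s hs => ?_⟩
      have := H ⟨X, hX⟩ n hn s (by rw [hΛ]; exact hs)
      rwa [hx] at this
    · rintro ⟨n0, H⟩
      refine ⟨n0, fun X n hn s hs => ?_⟩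
      rw [hΛ] at hs
      rw [hx]
      exact H X.1 X.2 n hn s hs
  simp only [e1, e2, e3, e4] at h
  obtain ⟨h1, h2, h3, h4, h5, h6⟩ := h
  exact ⟨h1, h2, h3, h4, h5, h6⟩

/-- the cohomology of the powers of the curve -/
noncomputable def powCoh (g k : ℕ) (hk : k < g) : Cohomology (2 * k + 1) where
  N := 2
  hodge := fun p => g.choose p * g.choose (2 * k + 1 - p)
  plus := 0
  minus := 0
  P := Run7.h517.GL.powPp g (2 * k + 1)
  N_pos := two_pos
  betti_pos := by
    unfold bettiOf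
    exact Nat.add_pos_left (Run7.h517.GL.bet_pos hk) _
  const := fun p hp => by
    unfold Run7.h517.GL.powPp
    split_ifs
    · simp
    · exact Run7.h517.GL.powP_zero _ _ _ _
  degree_good := fun p hp hpN => by
    have h2 : p ≠ 2 := fun h => hpN (by rw [h])
    unfold Run7.h517.GL.powPp bettiOf
    rw [if_neg h2, Run7.h517.GL.powP_deg g _ (by exact_mod_cast hp.ne_zero),
      if_neg (Nat.not_even_iff_odd.2 ⟨k, rfl⟩), add_zero]
  degree_bad := fun p hp hpN => by
    have h2 : p = 2 := (Nat.prime_dvd_prime_iff_eq hp Nat.prime_two).1 hpN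
    unfold Run7.h517.GL.powPp
    rw [if_pos h2]
    simp
  roots_good := fun p hp hpN z hz => by
    have h2 : p ≠ 2 := fun h => hpN (by rw [h])
    unfold Run7.h517.GL.powPp at hz
    rw [if_neg h2] at hz
    exact Run7.h517.GL.powP_root g k hp h2 hz
  roots_bad := fun p hp hpN z hz => by
    have h2 : p = 2 := (Nat.prime_dvd_prime_iff_eq hp Nat.prime_two).1 hpN
    unfold Run7.h517.GL.powPp at hz
    rw [if_pos h2, map_one] at hz
    exact absurd hz one_ne_zero

theorem power (g k : ℕ) (hk : k < g) : ∃ (m : ℕ) (X : HasseWeil m), IsPower g (2 * k + 1) X := by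
  obtain ⟨Λ, h1, h2, h3, σ, h4⟩ := Run7.h517.GL.powX g k hk
  refine ⟨_, ⟨2 * k + 1, powCoh g k hk, Pool.Agent.W355.HW.Cond g (2 * k + 1), 0, Λ, rfl,
    ⟨?_, Nat.zero_le _, h1, h2, h3, σ, fun s hs => ?_⟩⟩, rfl, rfl, rfl, ?_, ?_, fun p => rfl, rfl⟩
  · unfold Pool.Agent.W355.HW.Cond
    exact one_le_pow₀ (by norm_num)
  · rw [h4 s hs]
    congr 2
    unfold Cohomology.gammaFactor Pool.Agent.W355.HW.GamF
    rw [if_neg (Nat.not_even_iff_odd.2 ⟨k, rfl⟩), mul_one]
    rfl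
  · show Run7.h517.GL.powPp g (2 * k + 1) 2 = 1
    unfold Run7.h517.GL.powPp
    rw [if_pos rfl]
  · intro p hp h2 α β hα hβ z
    show aeval z (Run7.h517.GL.powPp g (2 * k + 1) p) = _
    unfold Run7.h517.GL.powPp
    rw [if_neg h2]
    exact Run7.h517.GL.powP_aeval g k hα (by rw [hβ]; push_cast; rfl) z

/-- **The theorem.**  (I) The statements `HeatRange P` hold for every set `P` of Hasse-Weil L-functions of
degree `m` with continuation and functional equation.  (II) For `X = E^g`, `E : y² = x³ - x`, every `g`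
and every odd `i < 2g`, the continuation and the functional equation hold, so that (I) holds for the set
consisting of this one L-function, unconditionally. -/
theorem result :
    (∀ (m : ℕ) (P : HasseWeil m → Prop), HeatRange P) ∧
    (∀ g i : ℕ, Odd i → i < 2 * g →
      ∃ (m : ℕ) (X : HasseWeil m), IsPower g i X ∧ HeatRange (fun Y : HasseWeil m => Y = X)) := by
  refine ⟨fun m P => heatRange P, fun g i hi hg => ?_⟩
  obtain ⟨k, rfl⟩ := hi
  obtain ⟨m, X, hX⟩ := power g k (by omega)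
  exact ⟨m, X, hX, heatRange _⟩

end Pool.Agent.Results.MP_7193be_nt.ExactHeatRange
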