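import Pool.Agent.Run7.h517.H16

/-!
# The Ramanujan Xi function: zero-free strips, the Lindelöf hypothesis and the derivatives of the heat flow

Let `Λ(s) = (2π)^(-s) Γ(s) L(s, Δ)`, `Ξ_Δ(z) = Λ(6 + i z)`, and let `Λ_t = e^{t D²} Λ` (`D = d/ds`) be the
heat flow.  Reality of all zeros of `Ξ_Δ` implies that all zeros of `D^n Λ_t` are on the line `Re s = 6` for
all `n` and all `t ≥ 0`.

* `RealFrom c`: for all large `n` and all `t ≥ c/n`, ALL zeros of `D^n Λ_t` are simple and on the line.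
* `Strip v`: for every `ε > 0`, all zeros of `Ξ_Δ` of large height are in the strip `|Im z| < v + ε`.
* `Growth μ`: `L(6 + i y, Δ) ≪ (1 + |y|)^(μ + ε)` for every `ε > 0`; `Growth 0` is the Lindelöf hypothesis.

The theorem: (1) `Strip v` implies `RealFrom c` for every `c > v²/8`; (2) `RealFrom c` holds for every
`c > 1/32` unconditionally; (3) conversely `Growth μ` and reality on the single curve `t = c/n` imply
`Strip (μ/2 + √(μ²/4 + 8c))`; (4) under the Lindelöf hypothesis `Strip v` is equivalent to `RealFrom c` for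
all `c > v²/8`, so the zeros of `D^n Λ_t` determine the width of the strip; (5) if `RealFrom c` holds for
all `c > 0`, then `Growth μ` is equivalent to `Strip μ`; (6) `Strip 0` is equivalent to the Lindelöf
hypothesis together with `RealFrom c` for all `c > 0`.

It was known (starting file `HeatFlowDerivatives` of this problem) that the zeros of `D^n Λ_t` are on the
line if `n t ≥ C`, with an unspecified constant `C`.
-/

set_option autoImplicit false

namespace Pool.Agent.Results.MP_cd509c_nt.ExactHeatRange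

open Complex
open scoped ComplexConjugate

/-- `Δ(i y) = e^(-2πy) ∏_{n ≥ 1} (1 - e^(-2πny))^24`, the modular discriminant on the imaginary axis
(the function of the frozen statement S18517). -/
noncomputable def delta (y : ℝ) : ℝ :=
  Real.exp (-2 * Real.pi * y) * ∏' n : ℕ, (1 - Real.exp (-2 * Real.pi * ((n : ℝ) + 1) * y)) ^ 24

/-- The completed L-function `Λ(s) = ∫_0^∞ Δ(i y) y^(s-1) dy = (2π)^(-s) Γ(s) L(s, Δ)`, an entire
function with `Λ(12 - s) = Λ(s)`. -/
noncomputable def Lam (s : ℂ) : ℂ := mellin (fun y : ℝ => ((delta y : ℝ) : ℂ)) s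

/-- The L-function `L(s, Δ) = Λ(s) / ((2π)^(-s) Γ(s))`. -/
noncomputable def L (s : ℂ) : ℂ := Lam s / ((2 * (Real.pi : ℂ)) ^ (-s) * Gamma s)

/-- The Ramanujan Xi function `Ξ_Δ(z) = Λ(6 + i z)`. -/
noncomputable def Xi (z : ℂ) : ℂ := Lam (6 + Complex.I * z)

/-- The heat flow `Λ_t = e^{t D²} Λ` (`D = d/ds`) as a Gaussian average:
`Λ_t(s) = π^(-1/2) ∫ exp (-v²) Λ(s + 2 √t v) dv`. -/
noncomputable def heat (t : ℝ) (Λ : ℂ → ℂ) (s : ℂ) : ℂ :=
  ((1 / Real.sqrt Real.pi : ℝ) : ℂ) *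
    ∫ v : ℝ, ((Real.exp (-v ^ 2) : ℝ) : ℂ) * Λ (s + ((2 * Real.sqrt t * v : ℝ) : ℂ))

/-- For every `ε > 0`, all zeros of `Ξ_Δ` of large height are in the strip `|Im z| < v + ε`. -/
def Strip (v : ℝ) : Prop :=
  ∀ ε : ℝ, 0 < ε → ∃ T : ℝ, ∀ z : ℂ, Xi z = 0 → T ≤ |z.re| → |z.im| < v + ε

/-- `L(6 + i y, Δ) ≪ (1 + |y|)^(μ + ε)` for every `ε > 0`. -/
def Growth (μ : ℝ) : Prop :=
  ∀ ε : ℝ, 0 < ε → ∃ B : ℝ, ∀ y : ℝ, ‖L (6 + y * I)‖ ≤ B * (1 + |y|) ^ (μ + ε)

/-- For all large `n` and all `t ≥ c / n`, ALL zeros of `D^n Λ_t` are simple and on the line `Re s = 6`. -/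
def RealFrom (c : ℝ) : Prop :=
  ∃ n₀ : ℕ, ∀ n : ℕ, n₀ ≤ n → ∀ t : ℝ, c ≤ n * t → ∀ s : ℂ, iteratedDeriv n (heat t Lam) s = 0 →
    s.re = 6 ∧ iteratedDeriv (n + 1) (heat t Lam) s ≠ 0

/-- For all large `n`, all zeros of `D^n Λ_{c/n}` are on the line `Re s = 6`. -/
def RealOn (c : ℝ) : Prop :=
  ∃ n₀ : ℕ, ∀ n : ℕ, n₀ ≤ n → ∀ s : ℂ, iteratedDeriv n (heat (c / n) Lam) s = 0 → s.re = 6

/-- **The theorem.** -/
theorem result :
    (∀ v c : ℝ, 0 ≤ v → Strip v → v ^ 2 / 8 < c → RealFrom c) ∧ (∀ c : ℝ, 1 / 32 < c → RealFrom c) ∧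
    (∀ μ c : ℝ, 0 ≤ μ → 0 < c → Growth μ → RealOn c → Strip (μ / 2 + Real.sqrt (μ ^ 2 / 4 + 8 * c))) ∧
    (Growth 0 → ∀ v : ℝ, 0 ≤ v → (Strip v ↔ ∀ c : ℝ, v ^ 2 / 8 < c → RealFrom c)) ∧
    ((∀ c : ℝ, 0 < c → RealFrom c) → ∀ μ : ℝ, 0 ≤ μ → (Growth μ ↔ Strip μ)) ∧
    (Strip 0 ↔ Growth 0 ∧ ∀ c : ℝ, 0 < c → RealFrom c) := by
  obtain ⟨F, u, hu, hx, hΛ, hL, hC, hfe⟩ := Run7.h517.GL.newfam (by norm_num)
    Pool.Agent.Y771.NF.newf_delta
  have hLam : Pool.Agent.Y771.NF.Lam Pool.Agent.W97.TW.deltaForm = Lam :=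
    funext fun s => Pool.Agent.Y771.NF.Lam_delta s
  rw [hLam] at hΛ hL hfe
  have hx6 : F.x () = 6 := by rw [hx]; norm_num
  have hu0 : 0 < ‖u‖ := norm_pos_iff.2 hu
  have hfe6 : ∀ s : ℂ, Lam s = 0 → Lam (12 - conj s) = 0 := fun s hs => by
    have := hfe s hs
    exact_mod_cast this
  have hXi : ∀ z : ℂ, Xi z = Lam (6 + I * z) := fun z => rfl
  have e1 : ∀ c, F.Re_ c ↔ RealFrom c := fun c => by
    constructor
    · rintro ⟨n0, H⟩
      refine ⟨n0, fun n hn t hnt s hs => ?_⟩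
      have := H () n hn t hnt s (by rw [hΛ]; exact hs)
      rwa [hx6, hΛ] at this
    · rintro ⟨n0, H⟩
      refine ⟨n0, fun _ n hn t hnt s hs => ?_⟩
      rw [hΛ] at hs ⊢
      rw [hx6]
      exact H n hn t hnt s hs
  have e4 : ∀ c, F.Rc_ c ↔ RealOn c := fun c => by
    constructor
    · rintro ⟨n0, H⟩
      refine ⟨n0, fun n hn s hs => ?_⟩
      have := H () n hn s (by rw [hΛ]; exact hs)
      rwa [hx6] at this
    · rintro ⟨n0, H⟩
      refine ⟨n0, fun _ n hn s hs => ?_⟩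
      rw [hΛ] at hs
      rw [hx6]
      exact H n hn s hs
  have e2 : ∀ v, F.Free v ↔ Strip v := fun v => by
    constructor
    · intro h ε hε
      obtain ⟨C0, H⟩ := h ε hε
      refine ⟨|C0|, fun z hz hT => ?_⟩
      have hCn : ∀ y : ℝ, |y| = |z.re| → C0 ≤ F.Cn () y := by
        intro y hy
        rw [hC, hy]
        have h1 := le_abs_self C0
        have h2 := abs_nonneg z.re
        nlinarith
      have hre : (6 + I * z).re = 6 - z.im := by simp; ring
      have him : (6 + I * z).im = z.re := by simp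
      rw [abs_lt]
      constructor
      · by_contra hcon
        push Not at hcon
        refine H () (6 + I * z) (hCn _ (by rw [him])) ?_ (by rw [hΛ]; exact hz)
        rw [hx6, hre]
        linarith
      · by_contra hcon
        push Not at hcon
        refine H () (12 - conj (6 + I * z)) (hCn _ ?_) ?_ (by rw [hΛ]; exact hfe6 _ hz)
        · rw [sub_im, conj_im, him]
          norm_num
        · rw [hx6, sub_re, conj_re, hre]
          norm_num
          linarith
    · intro h ε hε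
      obtain ⟨T, H⟩ := h ε hε
      refine ⟨(1 + |T|) ^ 2, fun _ s hs1 hs2 h0 => ?_⟩
      rw [hC] at hs1
      rw [hx6] at hs2
      rw [hΛ] at h0
      have h1 : |T| ≤ |s.im| := by
        have := abs_nonneg T
        have := abs_nonneg s.im
        nlinarith
      have e1 : 6 + I * (-I * (s - 6)) = s := by
        have hI := Complex.I_mul_I
        linear_combination (-(s - 6)) * hI
      have e2 : (-I * (s - 6)).re = s.im := by simp
      have e3 : (-I * (s - 6)).im = -(s.re - 6) := by simp [Complex.mul_im]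
      have h2 := H (-I * (s - 6)) (by rw [hXi, e1]; exact h0)
        (by rw [e2]; exact (le_abs_self T).trans h1)
      rw [e3] at h2
      linarith [(abs_lt.1 h2).1]
  have e3 : ∀ a, F.Sz a ↔ Growth (2 * a) := fun a => by
    have hpow : ∀ y x : ℝ, ((1 + |y|) ^ 2) ^ x = (1 + |y|) ^ (2 * x) := fun y x => by
      rw [← Real.rpow_natCast, ← Real.rpow_mul (by positivity)]
      norm_num
    have hval : ∀ y : ℝ, F.Lf () (((F.x () : ℝ) : ℂ) + y * I) = u * L (6 + y * I) := fun y => by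
      rw [hL, hx6]
      unfold L
      norm_num
    constructor
    · intro h ε hε
      obtain ⟨B, H⟩ := h (ε / 2) (by linarith)
      refine ⟨B / ‖u‖, fun y => ?_⟩
      have h1 := H () y
      rw [hval, norm_mul, hC, hpow] at h1
      rw [div_mul_eq_mul_div, le_div_iff₀ hu0]
      have e : 2 * (a + ε / 2) = 2 * a + ε := by ring
      rw [e] at h1
      linarith
    · intro h ε hε
      obtain ⟨B, H⟩ := h (2 * ε) (by linarith)
      refine ⟨‖u‖ * B, fun _ y => ?_⟩
      rw [hval, norm_mul, hC, hpow]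
      have e : 2 * (a + ε) = 2 * a + 2 * ε := by ring
      rw [e, mul_assoc]
      exact mul_le_mul_of_nonneg_left (H y) hu0.le
  have h := F.main
  simp only [e1, e2, e3, e4] at h
  obtain ⟨h1, h2, h3, h4, h5, h6⟩ := h
  refine ⟨h1, h2, fun μ c hμ hc hG hR => ?_, ?_, fun hR μ hμ => ?_, ?_⟩
  · have := h3 (μ / 2) c (by linarith) hc (by rwa [mul_div_cancel₀ _ (two_ne_zero)]) hR
    have e : (μ / 2) ^ 2 = μ ^ 2 / 4 := by ring
    rwa [e] at this
  · rwa [mul_zero] at h4
  · have := h5 hR (μ / 2) (by linarith)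
    rwa [mul_div_cancel₀ _ (two_ne_zero)] at this
  · rwa [mul_zero] at h6

end Pool.Agent.Results.MP_cd509c_nt.ExactHeatRange
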