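import Pool.Agent.Run7.h517.H15

/-!
# L-functions of elliptic curves over number fields: zero-free half-planes, the Lindelöf hypothesis and
# the derivatives of the heat flow

Let `E` be an elliptic curve over a number field `K` of degree `d`, `L(E/K, s)` its Hasse-Weil L-function
and `Λ = A^(s/2) ((2π)^(-s) Γ(s))^d L(E/K, s)` the completed function.  Let `D = d/ds` and let
`Λ_t = e^{t D²} Λ` be the heat flow.  The Riemann hypothesis for `L(E/K, s)` is the statement that all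
zeros of `D^n Λ_t` are on the line `Re s = 1` for `n = 0`, `t = 0`, and it implies this for all `n` and all
`t ≥ 0`.  Let `𝔠(y) = A (1 + |y|)^(2d)` and let `P` be any set of such L-functions of the same degree `d`
(for instance all of them, or a single one).

* `RealFrom d P c`: for all large `n`, all `t ≥ c/n` and all members of `P`, ALL zeros of `D^n Λ_t` are
  simple and on the line `Re s = 1`.
* `ZeroFree d P v`: for every `ε > 0`, `Λ` has no zeros with `Re s ≥ 1 + v + ε` and `𝔠(Im s)` large.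
* `Size d P a`: `L(1 + i y) ≪ 𝔠(y)^(a + ε)` for every `ε > 0`; `Size d P 0` is the Lindelöf hypothesis.

The theorem: (1) `ZeroFree d P v` implies `RealFrom d P c` for every `c > v²/8`; (2) `RealFrom d P c` holds
for every `c > 1/32` without any hypothesis on the zeros; (3) conversely `Size d P a` and reality on the
single curve `t = c/n` imply `ZeroFree d P (a + √(a² + 8c))`; (4) under the Lindelöf hypothesis
`ZeroFree d P v` is equivalent to `RealFrom d P c` for all `c > v²/8`, so the zeros of `D^n Λ_t` determine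
the width of the zero-free half-plane; (5) if `RealFrom d P c` holds for all `c > 0`, then `Size d P a` is
equivalent to `ZeroFree d P (2a)`; (6) `ZeroFree d P 0` is equivalent to the Lindelöf hypothesis together
with `RealFrom d P c` for all `c > 0`.

It was known (starting file `UniformHeatDerivatives` of this problem) that the zeros of `D^n Λ_t` are on
the line and simple if `n t ≥ C`, with an unspecified constant `C`.

The sets `P` may contain

* all elliptic curves over all number fields of degree `d` whose L-function has the properties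
  conjectured by Hasse and Weil (`Λ` is entire, of finite order, and `Λ(s) = ± Λ(2 - s)`);
* all `E/ℚ` of conductor `N` over all abelian number fields `K` of degree `d` and conductor prime to `N`
  (given by their groups `G` of Dirichlet characters), in particular `K = ℚ`; here the continuation is
  proved, so that for these the theorem is unconditional.
-/

set_option autoImplicit false

open Complex UpperHalfPlane MatrixGroups CongruenceSubgroup NumberField IsDedekindDomain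
open scoped ComplexConjugate

namespace Pool.Agent.Results.MP_fb225e_nt.ExactHeatRange

/-! ### Hasse-Weil L-functions of elliptic curves over number fields -/

/-- `W v` is, for every finite place `v`, an integral model of `E` with discriminant minimal at
`v`. -/
def MinimalModels {K : Type} [Field K] [NumberField K] (E : WeierstrassCurve K)
    (W : HeightOneSpectrum (𝓞 K) → WeierstrassCurve (𝓞 K)) : Prop :=
  ∀ v : HeightOneSpectrum (𝓞 K),
    (∃ C : WeierstrassCurve.VariableChange K, C • (W v).map (algebraMap (𝓞 K) K) = E) ∧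
    ∀ W' : WeierstrassCurve (𝓞 K),
      (∃ C : WeierstrassCurve.VariableChange K, C • W'.map (algebraMap (𝓞 K) K) = E) →
      ∀ n : ℕ, (W v).Δ ∈ v.asIdeal ^ n → W'.Δ ∈ v.asIdeal ^ n

open Classical in
/-- The Euler factor at `v`, `(1 - a_v Nv^{-s} + Nv^{1-2s})⁻¹` if the reduction at `v` is good and
`(1 - a_v Nv^{-s})⁻¹` if it is bad, where `a_v` is `Nv` minus the number of affine points of the
reduction of `W v`. -/
noncomputable def localFactor {K : Type} [Field K] [NumberField K]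
    (W : HeightOneSpectrum (𝓞 K) → WeierstrassCurve (𝓞 K)) (v : HeightOneSpectrum (𝓞 K))
    (s : ℂ) : ℂ :=
  (1 - ((Ideal.absNorm v.asIdeal : ℂ)
        - (Nat.card {xy : (𝓞 K ⧸ v.asIdeal) × (𝓞 K ⧸ v.asIdeal) //
            ((W v).map (Ideal.Quotient.mk v.asIdeal)).toAffine.Equation xy.1 xy.2} : ℂ))
        * (Ideal.absNorm v.asIdeal : ℂ) ^ (-s)
    + (if (W v).Δ ∈ v.asIdeal then 0 else (Ideal.absNorm v.asIdeal : ℂ))
        * (Ideal.absNorm v.asIdeal : ℂ) ^ (-2 * s))⁻¹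

/-- The `L`-function `L(E/K, s)` in the half-plane of convergence, as the Euler product over all
finite places. -/
noncomputable def LSeries {K : Type} [Field K] [NumberField K]
    (W : HeightOneSpectrum (𝓞 K) → WeierstrassCurve (𝓞 K)) (s : ℂ) : ℂ :=
  ∏' v : HeightOneSpectrum (𝓞 K), localFactor W v s

/-- `Λ` is the completed L-function `A^(s/2) ((2π)^(-s) Γ(s))^[K : ℚ] L(E/K, s)`, and it has the
properties conjectured by Hasse and Weil: it is entire, of finite order, and `Λ(s) = ± Λ(2 - s)`. -/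
structure HasseWeil {K : Type} [Field K] [NumberField K]
    (W : HeightOneSpectrum (𝓞 K) → WeierstrassCurve (𝓞 K)) (A : ℝ) (Λ : ℂ → ℂ) : Prop where
  one_le : 1 ≤ A
  entire : Differentiable ℂ Λ
  order : ∃ c ρ : ℝ, ∀ s : ℂ, ‖Λ s‖ ≤ Real.exp (c * (1 + ‖s‖) ^ ρ)
  fe : ∃ w : ℝ, (w = 1 ∨ w = -1) ∧ ∀ s : ℂ, Λ s = w * Λ (2 - s)
  eq : ∃ σ : ℝ, ∀ s : ℂ, σ ≤ s.re → Λ s = (A : ℂ) ^ (s / 2) *
    ((2 * (Real.pi : ℂ)) ^ (-s) * Gamma s) ^ Module.finrank ℚ K * LSeries W s

/-! ### Elliptic curves over `ℚ` and abelian number fields -/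

/-- The coefficient `a_p` of `E : y² = x³ + a x + b` at a prime `p ∤ 2 (4a³ + 27b²)`: `p` minus the
number of pairs `(x, y)` modulo `p` with `y² ≡ x³ + a x + b (mod p)`. -/
noncomputable def ap (a b : ℤ) (p : ℕ) : ℤ :=
  (p : ℤ) - (((Finset.range p ×ˢ Finset.range p).filter
    (fun xy : ℕ × ℕ => (p : ℤ) ∣ (xy.2 : ℤ) ^ 2 -
      ((xy.1 : ℤ) ^ 3 + a * (xy.1 : ℤ) + b))).card : ℤ)

/-- The `n`-th Fourier coefficient of `f`. -/
noncomputable def coef {N : ℕ} (f : CuspForm (Gamma0 N : Subgroup (GL (Fin 2) ℝ)) 2) (n : ℕ) : ℂ :=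
  (qExpansion 1 f).coeff n

/-- `f ∈ S_2(Γ₀(N))` is the newform of the elliptic curve `E : y² = x³ + a x + b` of conductor `N` and
root number `w`: the Fourier coefficients `c(n)` of `f` are real with `c(1) = 1`, they satisfy the
Hecke relations `c(mn) = c(m) c(n)` for coprime `m`, `n` and `c(p^(j+2)) = c(p) c(p^(j+1)) - p c(p^j)`
(without the last term if `p ∣ N`), `f(-1/(Nτ)) = -w N τ² f(τ)`, `c(p) = a_p(E)` for all primes
`p ∤ 2 (4a³ + 27b²)`, `|c(p)| ≤ 2 √p` for all `p ∤ N` (Hasse) and `c(p) = 0, 1, -1` for `p ∣ N`. -/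
structure IsFormOf (a b : ℤ) (N : ℕ) (f : CuspForm (Gamma0 N : Subgroup (GL (Fin 2) ℝ)) 2) (w : ℝ) :
    Prop where
  one : coef f 1 = 1
  real : ∀ n, (coef f n).im = 0
  mul : ∀ m n : ℕ, Nat.Coprime m n → coef f (m * n) = coef f m * coef f n
  pow : ∀ p j : ℕ, p.Prime → coef f (p ^ (j + 2)) = coef f p * coef f (p ^ (j + 1)) -
      (if p ∣ N then 0 else (p : ℂ) * coef f (p ^ j))
  sign : w = 1 ∨ w = -1
  fricke : ∀ τ τ' : ℍ, (τ' : ℂ) * ((N : ℂ) * (τ : ℂ)) = -1 →
    f τ' = -(w : ℂ) * (N : ℂ) * (τ : ℂ) ^ 2 * f τ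
  points : ∀ p : ℕ, p.Prime → ¬ (p : ℤ) ∣ 2 * (4 * a ^ 3 + 27 * b ^ 2) → coef f p = (ap a b p : ℂ)
  good : ∀ p : ℕ, p.Prime → ¬ p ∣ N → ‖coef f p‖ ≤ 2 * Real.sqrt p
  bad : ∀ p : ℕ, p.Prime → p ∣ N → coef f p = 0 ∨ coef f p = 1 ∨ coef f p = -1

/-- The completed L-function of the twist of `E` by `χ` modulo `q`, for `Re s > 3/2`:
`(√N q / 2π)^s Γ(s) ∑ c(n) χ(n) n^(-s)`. -/
noncomputable def twist {N : ℕ} (f : CuspForm (Gamma0 N : Subgroup (GL (Fin 2) ℝ)) 2) {q : ℕ}
    (χ : DirichletCharacter ℂ q) (s : ℂ) : ℂ :=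
  ((Real.sqrt N * q / (2 * Real.pi) : ℝ) : ℂ) ^ s * Complex.Gamma s *
    ∑' n : ℕ, coef f (n + 1) * χ ((n + 1 : ℕ) : ZMod q) * ((n + 1 : ℕ) : ℂ) ^ (-s)

section
variable {M : ℕ} (G : Subgroup (DirichletCharacter ℂ M)) [Fintype G]

/-- `Λ = Λ(E/K, s)`, where `K` is the abelian number field with the group `G` of Dirichlet
characters: `Λ` is entire and, for large real part, it is the product over `χ` in `G` of the completed
L-functions of the twists of `E` by the primitive character associated with `χ`. -/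
def IsCompleted {N : ℕ} (f : CuspForm (Gamma0 N : Subgroup (GL (Fin 2) ℝ)) 2) (Λ : ℂ → ℂ) : Prop :=
  Differentiable ℂ Λ ∧ ∃ σ : ℝ, ∀ s : ℂ, σ ≤ s.re →
    Λ s = ∏ χ : G, twist f (χ : DirichletCharacter ℂ M).primitiveCharacter s

/-- The conductor `A = ∏ N f_χ² = N^[K : ℚ] disc(K)²` of `L(E/K, s)`. -/
noncomputable def condA (N : ℕ) : ℝ :=
  ∏ χ : G, ((N : ℝ) * ((χ : DirichletCharacter ℂ M).conductor : ℝ) ^ 2)

end

/-! ### The heat flow and its derivatives -/

/-- The heat flow `Λ_t = e^{t D²} Λ` (`D = d/ds`) as a Gaussian average: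
`Λ_t(s) = π^(-1/2) ∫ exp (-v²) Λ(s + 2 √t v) dv`. -/
noncomputable def heat (t : ℝ) (Λ : ℂ → ℂ) (s : ℂ) : ℂ :=
  ((1 / Real.sqrt Real.pi : ℝ) : ℂ) *
    ∫ v : ℝ, ((Real.exp (-v ^ 2) : ℝ) : ℂ) * Λ (s + ((2 * Real.sqrt t * v : ℝ) : ℂ))

/-- A completed L-function with its conductor. -/
structure LFun where
  /-- the conductor -/
  A : ℝ
  /-- the completed L-function -/
  Λ : ℂ → ℂ

/-- the L-function `Λ(s) / (A^(s/2) ((2π)^(-s) Γ(s))^d)` -/
noncomputable def LFun.L (d : ℕ) (X : LFun) (s : ℂ) : ℂ :=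
  X.Λ s / ((X.A : ℂ) ^ (s / 2) * ((2 * (Real.pi : ℂ)) ^ (-s) * Gamma s) ^ d)

/-- the analytic conductor at the height `y` -/
noncomputable def LFun.C (d : ℕ) (X : LFun) (y : ℝ) : ℝ := X.A * (1 + |y|) ^ (2 * d)

/-- `X` is the completed L-function of an elliptic curve over a number field of degree `d`, and it has the
properties conjectured by Hasse and Weil. -/
def OverField (d : ℕ) (X : LFun) : Prop :=
  ∃ (K : Type) (_ : Field K) (_ : NumberField K) (E : WeierstrassCurve K) (_ : E.IsElliptic)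
    (W : HeightOneSpectrum (𝓞 K) → WeierstrassCurve (𝓞 K)),
    Module.finrank ℚ K = d ∧ MinimalModels E W ∧ HasseWeil W X.A X.Λ

/-- `X` is the completed L-function of an elliptic curve `y² = x³ + a x + b` over `ℚ` of conductor `N`
over an abelian number field of degree `d` and conductor prime to `N`. -/
def OverAbelian (d : ℕ) (X : LFun) : Prop :=
  ∃ (a b : ℤ) (N : ℕ) (_ : NeZero N) (f : CuspForm (Gamma0 N : Subgroup (GL (Fin 2) ℝ)) 2) (w : ℝ)
    (M : ℕ) (_ : NeZero M) (G : Subgroup (DirichletCharacter ℂ M)) (_ : Fintype G),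
    4 * a ^ 3 + 27 * b ^ 2 ≠ 0 ∧ IsFormOf a b N f w ∧ Nat.Coprime M N ∧ Fintype.card G = d ∧
      X.A = condA G N ∧ IsCompleted G f X.Λ

/-- There is `n₀` such that for all `X ∈ P`, all `n ≥ n₀` and all `t` with `n t ≥ c`, ALL zeros of `D^n Λ_t`
are simple and on the line `Re s = 1`. -/
def RealFrom (P : LFun → Prop) (c : ℝ) : Prop :=
  ∃ n₀ : ℕ, ∀ X : LFun, P X → ∀ n : ℕ, n₀ ≤ n → ∀ t : ℝ, c ≤ n * t → ∀ s : ℂ,
    iteratedDeriv n (heat t X.Λ) s = 0 → s.re = 1 ∧ iteratedDeriv (n + 1) (heat t X.Λ) s ≠ 0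

/-- There is `n₀` such that for all `X ∈ P` and all `n ≥ n₀`, all zeros of `D^n Λ_{c/n}` are on the line
`Re s = 1`. -/
def RealOn (P : LFun → Prop) (c : ℝ) : Prop :=
  ∃ n₀ : ℕ, ∀ X : LFun, P X → ∀ n : ℕ, n₀ ≤ n → ∀ s : ℂ,
    iteratedDeriv n (heat (c / n) X.Λ) s = 0 → s.re = 1

/-- For every `ε > 0` there is `C₀` such that for all `X ∈ P`, `Λ` has no zero `s` with
`Re s ≥ 1 + v + ε` and `𝔠(Im s) ≥ C₀`. -/
def ZeroFree (d : ℕ) (P : LFun → Prop) (v : ℝ) : Prop :=
  ∀ ε : ℝ, 0 < ε → ∃ C₀ : ℝ, ∀ X : LFun, P X → ∀ s : ℂ, C₀ ≤ X.C d s.im → 1 + v + ε ≤ s.re → X.Λ s ≠ 0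

/-- `L(1 + i y) ≪ 𝔠(y)^(a + ε)` for every `ε > 0`, uniformly in `X ∈ P` and `y`. -/
def Size (d : ℕ) (P : LFun → Prop) (a : ℝ) : Prop :=
  ∀ ε : ℝ, 0 < ε → ∃ B : ℝ, ∀ X : LFun, P X → ∀ y : ℝ,
    ‖X.L d (1 + (y : ℂ) * Complex.I)‖ ≤ B * X.C d y ^ (a + ε)

/-- The statements for a set of L-functions. -/
structure HeatRange (d : ℕ) (P : LFun → Prop) : Prop where
  /-- zero-free half-planes give real zeros, with the constant `v²/8` -/
  forward : ∀ v c : ℝ, 0 ≤ v → ZeroFree d P v → v ^ 2 / 8 < c → RealFrom P c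
  /-- without hypothesis -/
  always : ∀ c : ℝ, 1 / 32 < c → RealFrom P c
  /-- real zeros on one curve `n t = c` give zero-free half-planes -/
  backward : ∀ a c : ℝ, 0 ≤ a → 0 < c → Size d P a → RealOn P c →
    ZeroFree d P (a + Real.sqrt (a ^ 2 + 8 * c))
  /-- the equivalence under the Lindelöf hypothesis -/
  lindelof : Size d P 0 → ∀ v : ℝ, 0 ≤ v → (ZeroFree d P v ↔ ∀ c : ℝ, v ^ 2 / 8 < c → RealFrom P c)
  /-- the equivalence of size and zero-free half-planes -/
  size : (∀ c : ℝ, 0 < c → RealFrom P c) → ∀ a : ℝ, 0 ≤ a → (Size d P a ↔ ZeroFree d P (2 * a))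
  /-- zero-free half-planes up to the critical line -/
  zero : ZeroFree d P 0 ↔ Size d P 0 ∧ ∀ c : ℝ, 0 < c → RealFrom P c

/-! ### Proofs -/

open Run7.h517.GL in
lemma isForm {a b : ℤ} {N : ℕ} {f : CuspForm (Gamma0 N : Subgroup (GL (Fin 2) ℝ)) 2} {w : ℝ}
    (hf : IsFormOf a b N f w) : Pool.Agent.W169.HF.IsForm N f w :=
  { one := hf.one
    real := hf.real
    mul := hf.mul
    pow := hf.pow
    sign := hf.sign
    fricke := hf.fricke
    good := hf.good
    bad := fun p hp hpN => by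
      have h1 : (1 : ℝ) ≤ Real.sqrt p := by
        rw [Real.one_le_sqrt]
        exact_mod_cast hp.one_le
      have h2 : ‖coef f p‖ ≤ 1 := by
        rcases hf.bad p hp hpN with h | h | h <;> simp [h]
      exact h2.trans h1 }

/-- the constants -/
noncomputable def bE : ℝ := max (4 * Pool.Agent.TH839.UH.NF.B0) (Pool.Agent.W355.UN.Bst 1)

/-- the constants -/
noncomputable def aE (d : ℕ) : ℝ := max (Real.exp (d * Pool.Agent.TH839.UH.NF.B0))
  (Real.exp (2 * d * Run7.h517.GL.c0))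

lemma dd_field {d : ℕ} {X : LFun} (h : OverField d X) : Run7.h517.GL.DD d bE (aE d) X.A X.Λ := by
  obtain ⟨K, _, _, E, _, W, hd, hW, h⟩ := h
  classical
  have hk : Pool.Agent.TH839.UH.KL
      (fun v : HeightOneSpectrum (𝓞 K) => ((Ideal.absNorm v.asIdeal : ℂ)
        - (Nat.card {xy : (𝓞 K ⧸ v.asIdeal) × (𝓞 K ⧸ v.asIdeal) //
          ((W v).map (Ideal.Quotient.mk v.asIdeal)).toAffine.Equation xy.1 xy.2} : ℂ)))
      (fun v => if (W v).Δ ∈ v.asIdeal then 0 else (Ideal.absNorm v.asIdeal : ℂ)) X.A X.Λ := by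
    refine ⟨fun v => Pool.Agent.TH839.UH.trace_le v _, fun v => ?_, fun v => ?_, fun v => ?_,
      h.one_le, h.entire, h.order, h.fe, ?_⟩
    · show ‖(if (W v).Δ ∈ v.asIdeal then 0 else (Ideal.absNorm v.asIdeal : ℂ))‖ ≤
        ((Ideal.absNorm v.asIdeal : ℕ) : ℝ)
      split_ifs
      · rw [norm_zero]
        exact Nat.cast_nonneg _
      · rw [Complex.norm_natCast]
    · show conj ((Ideal.absNorm v.asIdeal : ℂ) - ((_ : ℕ) : ℂ)) = _
      rw [map_sub, Complex.conj_natCast, Complex.conj_natCast]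
    · show conj (if (W v).Δ ∈ v.asIdeal then 0 else (Ideal.absNorm v.asIdeal : ℂ)) = _
      split_ifs
      · rw [map_zero]
      · rw [Complex.conj_natCast]
    · obtain ⟨σ, hσ⟩ := h.eq
      refine ⟨σ, fun s hs => ?_⟩
      rw [hσ s hs]
      congr 1
      unfold LSeries Pool.Agent.TH839.UH.EL
      refine tprod_congr fun v => ?_
      unfold localFactor Pool.Agent.TH839.UH.NF.gv Pool.Agent.H921R2.TatePole.nm
      congr 1
      ring
  obtain ⟨S, hSd⟩ : ∃ S : Set (HeightOneSpectrum (𝓞 K)), S =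
      {v : HeightOneSpectrum (𝓞 K) | (W v).Δ ∈ v.asIdeal} ∪
      {v : HeightOneSpectrum (𝓞 K) | (6 : 𝓞 K) ∈ v.asIdeal} := ⟨_, rfl⟩
  have hSf : S.Finite := by
    rw [hSd]
    exact (Run7.h517.GL.bad_fin E W hW).union Run7.h517.GL.six_fin
  have hgood : ∀ v : HeightOneSpectrum (𝓞 K), v ∉ S →
      (if (W v).Δ ∈ v.asIdeal then 0 else (Ideal.absNorm v.asIdeal : ℂ)) =
        ((Pool.Agent.H921R2.TatePole.nm v : ℕ) : ℂ) ∧
      ‖((Ideal.absNorm v.asIdeal : ℂ)
        - (Nat.card {xy : (𝓞 K ⧸ v.asIdeal) × (𝓞 K ⧸ v.asIdeal) //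
          ((W v).map (Ideal.Quotient.mk v.asIdeal)).toAffine.Equation xy.1 xy.2} : ℂ))‖ ≤
        2 * Real.sqrt (Pool.Agent.H921R2.TatePole.nm v) := by
    intro v hv
    rw [hSd] at hv
    have hv1 : (W v).Δ ∉ v.asIdeal := fun h1 => hv (Or.inl h1)
    have hv2 : (6 : 𝓞 K) ∉ v.asIdeal := fun h1 => hv (Or.inr h1)
    refine ⟨if_neg hv1, Run7.h517.GL.hasse_le v _ hv2 ?_⟩
    rw [WeierstrassCurve.map_Δ, Ne, Ideal.Quotient.eq_zero_iff_mem]
    exact hv1
  have hbad : ∀ v : HeightOneSpectrum (𝓞 K), v ∈ S →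
      (if (W v).Δ ∈ v.asIdeal then 0 else (Ideal.absNorm v.asIdeal : ℂ)) = 0 ∨
      (if (W v).Δ ∈ v.asIdeal then 0 else (Ideal.absNorm v.asIdeal : ℂ)) =
        ((Pool.Agent.H921R2.TatePole.nm v : ℕ) : ℂ) := by
    intro v _
    by_cases hv1 : (W v).Δ ∈ v.asIdeal
    · left
      exact if_pos hv1
    · right
      exact if_neg hv1
  exact (Run7.h517.GL.KL.dd hk hSf hgood hbad hd).mono (le_max_left _ _) (le_max_left _ _)

lemma dd_ab {d : ℕ} {X : LFun} (h : OverAbelian d X) : Run7.h517.GL.DD d bE (aE d) X.A X.Λ := by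
  obtain ⟨a, b, N, _, f, w, M, _, G, _, -, hf, hco, hd, hA, hΛ⟩ := h
  obtain ⟨Λ, h1, h2, -, h4⟩ := Run7.h517.GL.ab_dd G (isForm hf) hco hd
  have e : X.Λ = Λ := Pool.Agent.W355.UN.Pk.uniq h1 hΛ.1 h2 hΛ.2
  rw [hA, e]
  exact h4.mono (le_max_right _ _) (le_max_right _ _)

theorem heatRange {d : ℕ} {P : LFun → Prop} (hP : ∀ X, P X → OverField d X ∨ OverAbelian d X) :
    HeatRange d P := by
  have hb : 0 ≤ bE := by
    have := Pool.Agent.TH839.UH.NF.B0_nonneg
    exact le_trans (by linarith) (le_max_left _ _)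
  obtain ⟨F, hx, hΛ, hL, hC⟩ := Run7.h517.GL.ddfam (ι := {X : LFun // P X}) hb (fun X => X.1.A)
    (fun X => X.1.Λ) (fun X => (hP X.1 X.2).elim dd_field dd_ab)
  have h := F.main
  have e1 : ∀ c, F.Re_ c ↔ RealFrom P c := fun c => by
    constructor
    · rintro ⟨n0, H⟩
      refine ⟨n0, fun X hX n hn t hnt s hs => ?_⟩
      have := H ⟨X, hX⟩ n hn t hnt s (by rw [hΛ]; exact hs)
      rwa [hx, hΛ] at this
    · rintro ⟨n0, H⟩
      refine ⟨n0, fun X n hn t hnt s hs => ?_⟩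
      rw [hΛ] at hs ⊢
      rw [hx]
      exact H X.1 X.2 n hn t hnt s hs
  have e2 : ∀ v, F.Free v ↔ ZeroFree d P v := fun v => by
    constructor
    · intro h ε hε
      obtain ⟨C0, H⟩ := h ε hε
      refine ⟨C0, fun X hX s a1 a2 => ?_⟩
      have := H ⟨X, hX⟩ s (by rw [hC]; exact a1) (by rw [hx]; exact a2)
      rwa [hΛ] at this
    · intro h ε hε
      obtain ⟨C0, H⟩ := h ε hε
      refine ⟨C0, fun X s a1 a2 => ?_⟩
      rw [hC] at a1
      rw [hx] at a2
      rw [hΛ]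
      exact H X.1 X.2 s a1 a2
  have e3 : ∀ a, F.Sz a ↔ Size d P a := fun a => by
    constructor
    · intro h ε hε
      obtain ⟨B, H⟩ := h ε hε
      refine ⟨B, fun X hX t => ?_⟩
      have := H ⟨X, hX⟩ t
      rwa [hL, hx, hC, Complex.ofReal_one] at this
    · intro h ε hε
      obtain ⟨B, H⟩ := h ε hε
      refine ⟨B, fun X t => ?_⟩
      rw [hL, hx, hC, Complex.ofReal_one]
      exact H X.1 X.2 t
  have e4 : ∀ c, F.Rc_ c ↔ RealOn P c := fun c => by
    constructor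
    · rintro ⟨n0, H⟩
      refine ⟨n0, fun X hX n hn s hs => ?_⟩
      have := H ⟨X, hX⟩ n hn s (by rw [hΛ]; exact hs)
      rwa [hx] at this
    · rintro ⟨n0, H⟩
      refine ⟨n0, fun X n hn s hs => ?_⟩
      rw [hΛ] at hs
      rw [hx]
      exact H X.1 X.2 n hn s hs
  simp only [e1, e2, e3, e4] at h
  obtain ⟨h1, h2, h3, h4, h5, h6⟩ := h
  exact ⟨h1, h2, h3, h4, h5, h6⟩

/-- **Main theorem.**  (I) The statements `HeatRange d P` hold for every `d` and every set `P` of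
completed L-functions of elliptic curves over number fields of degree `d` for which the conjecture of
Hasse and Weil holds and of elliptic curves over `ℚ` over abelian number fields of degree `d`.
(II) In the abelian case the completed L-function exists, it is unique, and it has a functional equation,
so that (I) is unconditional there. -/
theorem result :
    (∀ (d : ℕ) (P : LFun → Prop), (∀ X, P X → OverField d X ∨ OverAbelian d X) → HeatRange d P) ∧
    (∀ (a b : ℤ) (N : ℕ) [NeZero N] (f : CuspForm (Gamma0 N : Subgroup (GL (Fin 2) ℝ)) 2) (w : ℝ),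
      4 * a ^ 3 + 27 * b ^ 2 ≠ 0 → IsFormOf a b N f w →
      ∀ (M : ℕ) [NeZero M] (G : Subgroup (DirichletCharacter ℂ M)) [Fintype G], Nat.Coprime M N →
      ∃ Λ : ℂ → ℂ, IsCompleted G f Λ ∧ OverAbelian (Fintype.card G) ⟨condA G N, Λ⟩ ∧
        (∀ Λ' : ℂ → ℂ, IsCompleted G f Λ' → Λ' = Λ) ∧
        ∃ W : ℂ, ‖W‖ = 1 ∧ ∀ s : ℂ, Λ (2 - s) = W * conj (Λ (conj s))) := by
  refine ⟨fun d P hP => heatRange hP, ?_⟩
  intro a b N _ f w h0 hf M _ G _ hco
  obtain ⟨Λ, h1, h2, h3, -⟩ := Run7.h517.GL.ab_dd G (isForm hf) hco rfl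
  exact ⟨Λ, ⟨h1, h2⟩, ⟨a, b, N, inferInstance, f, w, M, inferInstance, G, inferInstance, h0, hf, hco,
    rfl, rfl, h1, h2⟩, fun Λ' h' => Pool.Agent.W355.UN.Pk.uniq h1 h'.1 h2 h'.2, h3⟩

end Pool.Agent.Results.MP_fb225e_nt.ExactHeatRange
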